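import Pool.Agent.H201.PW.Core

/-!
# Arithmetic functions and nonincreasing weights
-/

set_option autoImplicit false

namespace Pool.Agent.H201.PW

open Finset Filter Topology
open Pool.Agent.H201.NC

/-- the weights of the lengths -/
def cw (w : ℕ → ℝ) (N k : ℕ) : ℝ := if k = 0 then 0 else if k < N then w k - w (k + 1) else w N

theorem cw_nonneg {w : ℕ → ℝ} (hw : Antitone w) (hw0 : ∀ n, 0 ≤ w n) (N k : ℕ) : 0 ≤ cw w N k := by
  unfold cw
  split_ifs
  · exact le_rfl
  · have := hw (Nat.le_succ k)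
    have h2 : w (k + 1) ≤ w k := this
    linarith
  · exact hw0 N

theorem av_cw (w : ℕ → ℝ) (F : ℕ → ℝ) {N : ℕ} (hN : 1 ≤ N) :
    av (cw w N) N F = ∑ i ∈ range N, w (i + 1) * (F (i + 1) - F i) + w 1 * F 0 := by
  have h1 : av (cw w N) N F =
      ∑ k ∈ range N, (if k = 0 then 0 else (w k - w (k + 1)) * F k) + w N * F N := by
    unfold av
    rw [sum_range_succ]
    congr 1
    · refine sum_congr rfl fun k hk => ?_
      rw [mem_range] at hk
      unfold cw
      split_ifs
      · simp
      · rfl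
    · unfold cw
      rw [if_neg (by omega), if_neg (by omega)]
  rw [h1]
  clear h1
  induction N, hN using Nat.le_induction with
  | base =>
    simp
    ring
  | succ N hN ih =>
    rw [sum_range_succ, sum_range_succ (n := N), if_neg (by omega)]
    linarith

section letters

variable {α : Type} [DecidableEq α]

/-- the values of `f` at the first places -/
def vals (f : ℕ → α) (X : ℕ) : Finset α := (Icc 1 (X + 1)).image f

theorem mem_vals (f : ℕ → α) {X n : ℕ} (h1 : 1 ≤ n) (h2 : n ≤ X + 1) : f n ∈ vals f X :=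
  mem_image_of_mem f (mem_Icc.mpr ⟨h1, h2⟩)

/-- the letter of a value -/
def letter (f : ℕ → α) (X : ℕ) (x : α) : {x // x ∈ vals f X} :=
  if h : x ∈ vals f X then ⟨x, h⟩ else ⟨f 1, mem_vals f le_rfl (by omega)⟩

theorem letter_val (f : ℕ → α) {X n : ℕ} (h1 : 1 ≤ n) (h2 : n ≤ X + 1) :
    (letter f X (f n)).1 = f n := by
  unfold letter
  rw [dif_pos (mem_vals f h1 h2)]

/-- the weights of the letters -/
noncomputable def lw (w : ℕ → ℝ) (f : ℕ → α) (X N : ℕ) (x : {x // x ∈ vals f X}) : ℝ :=
  (∑ n ∈ (Icc 1 N).filter fun n => letter f X (f n) = x, w n) / ∑ n ∈ Icc 1 N, w n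

theorem lw_nonneg {w : ℕ → ℝ} (hw0 : ∀ n, 0 ≤ w n) (f : ℕ → α) (X N : ℕ)
    (x : {x // x ∈ vals f X}) : 0 ≤ lw w f X N x :=
  div_nonneg (sum_nonneg fun _ _ => hw0 _) (sum_nonneg fun _ _ => hw0 _)

theorem sum_lw {w : ℕ → ℝ} (f : ℕ → α) (X : ℕ) {N : ℕ} (hT : 0 < ∑ n ∈ Icc 1 N, w n) :
    ∑ x, lw w f X N x = 1 := by
  unfold lw
  rw [← sum_div, div_eq_one_iff_eq hT.ne']
  exact sum_fiberwise_of_maps_to (fun _ _ => mem_univ _) _

open Classical in
/-- the words of a set, as words of letters -/
noncomputable def words (f : ℕ → α) (X : ℕ) {k : ℕ} (S : Set (Fin k → α)) :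
    Finset (Fin k → {x // x ∈ vals f X}) :=
  univ.filter fun u => (fun i => (u i).1) ∈ S

theorem mem_words {f : ℕ → α} {X : ℕ} {k : ℕ} {S : Set (Fin k → α)}
    {u : Fin k → {x // x ∈ vals f X}} : u ∈ words f X S ↔ (fun i => (u i).1) ∈ S := by
  unfold words
  simp

open Classical in
theorem ms_words (w : ℕ → ℝ) (f : ℕ → α) {X N k : ℕ} (hX : N ≤ X + 1) (S : Set (Fin k → α)) :
    ms (lw w f X N) (words f X S) =
      (∑ m ∈ (Fintype.piFinset fun _ : Fin k => Icc 1 N).filter fun m => (fun i => f (m i)) ∈ S,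
        ∏ i, w (m i)) / (∑ n ∈ Icc 1 N, w n) ^ k := by
  have h1 : ∀ u : Fin k → {x // x ∈ vals f X}, wt (lw w f X N) u =
      (∑ m ∈ Fintype.piFinset fun i => (Icc 1 N).filter fun n => letter f X (f n) = u i,
        ∏ i, w (m i)) / (∑ n ∈ Icc 1 N, w n) ^ k := by
    intro u
    unfold wt lw
    rw [prod_div_distrib, prod_const, card_univ, Fintype.card_fin, prod_univ_sum]
  unfold ms
  simp only [h1]
  rw [← sum_div]
  congr 1
  have h2 : ∀ m ∈ (Fintype.piFinset fun _ : Fin k => Icc 1 N).filter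
      (fun m => (fun i => f (m i)) ∈ S), (fun i => letter f X (f (m i))) ∈ words f X S := by
    intro m hm
    rw [mem_filter, Fintype.mem_piFinset] at hm
    unfold words
    rw [mem_filter]
    refine ⟨mem_univ _, ?_⟩
    have : (fun i => (letter f X (f (m i))).1) = fun i => f (m i) := by
      funext i
      have := mem_Icc.mp (hm.1 i)
      exact letter_val f this.1 (by omega)
    rw [this]
    exact hm.2
  rw [← sum_fiberwise_of_maps_to h2]
  refine sum_congr rfl fun u hu => ?_
  refine sum_congr ?_ fun _ _ => rfl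
  ext m
  rw [Fintype.mem_piFinset, mem_filter, mem_filter, Fintype.mem_piFinset]
  constructor
  · intro h
    have h3 : ∀ i, m i ∈ Icc 1 N ∧ letter f X (f (m i)) = u i := fun i => mem_filter.mp (h i)
    refine ⟨⟨fun i => (h3 i).1, ?_⟩, funext fun i => (h3 i).2⟩
    unfold words at hu
    rw [mem_filter] at hu
    have : (fun i => f (m i)) = fun i => (u i).1 := by
      funext i
      have h4 := mem_Icc.mp (h3 i).1
      rw [← (h3 i).2, letter_val f h4.1 (by omega)]
    rw [this]
    exact hu.2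
  · rintro ⟨⟨h3, _⟩, h4⟩ i
    exact mem_filter.mpr ⟨h3 i, congrFun h4 i⟩

theorem sum_range_eq_Icc (N : ℕ) (F : ℕ → ℝ) :
    ∑ i ∈ range N, F (i + 1) = ∑ n ∈ Icc 1 N, F n := by
  induction N with
  | zero => simp
  | succ N ih => rw [sum_range_succ, ih, sum_Icc_succ_top (by omega)]

theorem sum_occ (x : ℕ → Prop) [DecidablePred x] (w : ℕ → ℝ) {N : ℕ} (hN : 1 ≤ N) :
    av (cw w N) N (fun k => (((range k).filter fun i => x (0 + i)).card : ℝ)) =
      ∑ n ∈ (Icc 1 N).filter fun n => x (n - 1), w n := by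
  rw [av_cw w _ hN]
  simp only [range_zero, filter_empty, card_empty, Nat.cast_zero, mul_zero, add_zero]
  have h1 : ∀ i, (((range (i + 1)).filter fun i => x (0 + i)).card : ℝ) -
      ((range i).filter fun i => x (0 + i)).card = if x i then 1 else 0 := by
    intro i
    rw [range_add_one, filter_insert]
    simp only [zero_add]
    split_ifs with h
    · rw [card_insert_of_notMem (by simp)]
      push_cast
      ring
    · ring
  simp only [zero_add] at h1
  simp only [zero_add, h1]
  rw [sum_filter, ← sum_range_eq_Icc N]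
  refine sum_congr rfl fun i _ => ?_
  simp only [Nat.add_sub_cancel]
  split_ifs <;> simp

open Classical in
theorem av_words (w : ℕ → ℝ) (f : ℕ → α) {X N k : ℕ} (hN : 1 ≤ N) (hX : N + k ≤ X + 1)
    (S : Set (Fin k → α)) :
    av (cw w N) N (fun K => (occ (fun n => letter f X (f (n + 1))) (words f X S) 0 K : ℝ)) =
      ∑ n ∈ (Icc 1 N).filter fun n => (fun i : Fin k => f (n + i)) ∈ S, w n := by
  unfold occ
  have h1 := sum_occ (fun i => win (fun n => letter f X (f (n + 1))) k i ∈ words f X S) w hN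
  rw [h1]
  refine sum_congr ?_ fun _ _ => rfl
  ext n
  rw [mem_filter, mem_filter]
  refine and_congr_right fun hn => ?_
  rw [mem_Icc] at hn
  unfold words
  rw [mem_filter]
  simp only [mem_univ, true_and]
  have : (fun i : Fin k => (win (fun n => letter f X (f (n + 1))) k (n - 1) i).1) =
      fun i : Fin k => f (n + i) := by
    funext i
    show (letter f X (f (n - 1 + (i : ℕ) + 1))).1 = f (n + i)
    have h3 : n - 1 + (i : ℕ) + 1 = n + i := by omega
    rw [h3]
    have := i.2
    exact letter_val f (by omega) (by omega)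
  rw [this]

end letters

end Pool.Agent.H201.PW
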