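import Pool.Agent.H201.PW.Words

/-!
# Bad words, uniformly in the alphabet and in the weights
-/

set_option autoImplicit false

namespace Pool.Agent.H201.PW

open Finset Filter Topology
open Pool.Agent.H201.NC

/-- the rate -/
noncomputable def cc (M : ℕ) (δ : ℝ) : ℝ := (δ / 2) ^ 2 / (8 * M)

theorem cc_pos {M : ℕ} {δ : ℝ} (hM : 0 < M) (hδ : 0 < δ) : 0 < cc M δ := by
  unfold cc
  have : (0 : ℝ) < M := by exact_mod_cast hM
  positivity

/-- `L` is sufficiently large -/
def Big (M : ℕ) (δ : ℝ) (L : ℕ) : Prop :=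
  2 * M * Real.exp ((δ / 2) ^ 2 / 2) ≤ Real.exp (cc M δ * L) ∧ 4 * M / δ ≤ (L : ℝ) ∧ M ≤ L

theorem eventually_big {M : ℕ} {δ : ℝ} (hM : 0 < M) (hδ : 0 < δ) : ∀ᶠ L in atTop, Big M δ L := by
  have h1 : ∀ᶠ L : ℕ in atTop, 2 * M * Real.exp ((δ / 2) ^ 2 / 2) ≤ Real.exp (cc M δ * L) := by
    have : Tendsto (fun L : ℕ => Real.exp (cc M δ * L)) atTop atTop :=
      Real.tendsto_exp_atTop.comp (tendsto_natCast_atTop_atTop.const_mul_atTop (cc_pos hM hδ))
    exact this.eventually_ge_atTop _
  have h2 : ∀ᶠ L : ℕ in atTop, 4 * M / δ ≤ (L : ℝ) :=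
    tendsto_natCast_atTop_atTop.eventually_ge_atTop _
  exact h1.and (h2.and (eventually_ge_atTop M))

variable {A : Type*} [Inhabited A] [Fintype A] [DecidableEq A]

theorem ms_union_le {a : A → ℝ} (ha : ∀ x, 0 ≤ a x) {L : ℕ} (S T : Finset (Fin L → A)) :
    ms a (S ∪ T) ≤ ms a S + ms a T := by
  unfold ms
  rw [← sum_union_inter]
  have : 0 ≤ ∑ u ∈ S ∩ T, wt a u := sum_nonneg fun _ _ => wt_nonneg ha _
  linarith

theorem ms_biUnion_le {a : A → ℝ} (ha : ∀ x, 0 ≤ a x) {L : ℕ} (M : ℕ)
    (S : ℕ → Finset (Fin L → A)) :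
    ms a ((range M).biUnion S) ≤ ∑ r ∈ range M, ms a (S r) := by
  induction M with
  | zero => simp [ms]
  | succ M ih =>
    rw [range_add_one, biUnion_insert, sum_insert notMem_range_self]
    exact (ms_union_le ha _ _).trans (by linarith)

theorem badset {a : A → ℝ} (ha : ∀ x, 0 ≤ a x) (ha1 : ∑ x, a x = 1) {M : ℕ} (hM : 0 < M)
    (S : Finset (Fin M → A)) {δ : ℝ} (hδ : 0 < δ) (hδ1 : δ ≤ 1) {L : ℕ} (hL : Big M δ L) :
    ∃ B : Finset (Fin L → A), ms a B ≤ Real.exp (-cc M δ * L) ∧
      ∀ (d : ℕ → A) (m : ℕ), win d L m ∉ B → |(occ d S m L : ℝ) - ms a S * L| ≤ δ * L := by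
  obtain ⟨hL1, hL2, hLM⟩ := hL
  set δ' : ℝ := δ / 2 with hδ'
  have hδ'0 : 0 < δ' := by positivity
  have hδ'1 : δ' ≤ 1 := by rw [hδ']; linarith
  have hMr : (0 : ℝ) < M := by exact_mod_cast hM
  set c : ℝ := cc M δ with hc
  have hcdef : c = δ' ^ 2 / (8 * M) := rfl
  have hc0 : 0 < c := cc_pos hM hδ
  set n : ℕ := L / M - 1 with hn
  have hdiv : 1 ≤ L / M := (Nat.one_le_div_iff hM).mpr hLM
  have hn1 : n + 1 = L / M := by omega
  have hn2 : (n + 1) * M ≤ L := by rw [hn1]; exact Nat.div_mul_le_self L M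
  have hn3 : L < (n + 2) * M := by
    have := Nat.lt_div_mul_add hM (a := L)
    rw [← hn1] at this
    nlinarith
  have hn2' : (n + 1) * M = n * M + M := by ring
  have hn3' : (n + 2) * M = n * M + 2 * M := by ring
  have hr : ∀ r < M, r + n * M ≤ L := fun r hr => by omega
  set U : ℕ → Finset (Fin L → A) := fun r => univ.filter fun u : Fin L → A => (ms a S + δ') * n ≤
      ((range n).filter fun j => win (ext u) M (r + j * M) ∈ S).card with hU
  set V : ℕ → Finset (Fin L → A) := fun r => univ.filter fun u : Fin L → A =>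
      (((range n).filter fun j => win (ext u) M (r + j * M) ∈ S).card : ℝ) ≤ (ms a S - δ') * n with hV
  refine ⟨(range M).biUnion fun r => U r ∪ V r, ?_, ?_⟩
  · have h3 : ms a ((range M).biUnion fun r => U r ∪ V r) ≤
        M * (2 * Real.exp (-(δ' ^ 2 / 4) * n)) := by
      calc ms a ((range M).biUnion fun r => U r ∪ V r)
          ≤ ∑ r ∈ range M, ms a (U r ∪ V r) := ms_biUnion_le ha M _
        _ ≤ ∑ r ∈ range M, 2 * Real.exp (-(δ' ^ 2 / 4) * n) := by
            refine sum_le_sum fun r hr' => ?_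
            rw [mem_range] at hr'
            have h4 := upper ha ha1 S hδ'0 hδ'1 (hr r hr')
            have h5 := lower ha ha1 S hδ'0 hδ'1 (hr r hr')
            have h6 := ms_union_le ha (U r) (V r)
            rw [hU, hV] at h6
            simp only at h6
            linarith
        _ = _ := by rw [sum_const, card_range, nsmul_eq_mul]
    refine h3.trans ?_
    have h4 : Real.exp (-(δ' ^ 2 / 4) * n) ≤ Real.exp (δ' ^ 2 / 2) * Real.exp (-(2 * c) * L) := by
      rw [← Real.exp_add]
      refine Real.exp_le_exp.mpr ?_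
      have h5 : (L : ℝ) ≤ (n + 2) * M := by
        have : (L : ℝ) < (n + 2) * M := by exact_mod_cast hn3
        exact this.le
      have h6 : 2 * c * L ≤ 2 * c * ((n + 2) * M) := by gcongr
      have h7 : 2 * c * ((n + 2) * M) = δ' ^ 2 / 4 * n + δ' ^ 2 / 2 := by
        rw [hcdef]
        field_simp
        ring
      linarith
    have h5 : Real.exp (-(2 * c) * L) = Real.exp (-c * L) * Real.exp (-(c * L)) := by
      rw [← Real.exp_add]
      congr 1
      ring
    have h6 : Real.exp (c * L) * Real.exp (-(c * L)) = 1 := by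
      rw [← Real.exp_add]
      simp
    have h7 : 0 < Real.exp (-(c * L)) := Real.exp_pos _
    have h8 : 0 < Real.exp (-c * L) := Real.exp_pos _
    calc M * (2 * Real.exp (-(δ' ^ 2 / 4) * n))
        ≤ M * (2 * (Real.exp (δ' ^ 2 / 2) * Real.exp (-(2 * c) * L))) := by gcongr
      _ = Real.exp (-c * L) * ((2 * M * Real.exp (δ' ^ 2 / 2)) * Real.exp (-(c * L))) := by
          rw [h5]; ring
      _ ≤ Real.exp (-c * L) * (Real.exp (c * L) * Real.exp (-(c * L))) := by gcongr
      _ = _ := by rw [h6, mul_one]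
  · intro d m hd
    have h3 : ∀ r < M, |(((range n).filter fun j => win (ext (win d L m)) M (r + j * M) ∈ S).card : ℝ) -
        ms a S * n| ≤ δ' * n := by
      intro r hr'
      have h4 : win d L m ∉ U r ∧ win d L m ∉ V r := by
        constructor
        · intro h
          exact hd (mem_biUnion.mpr ⟨r, mem_range.mpr hr', mem_union_left _ h⟩)
        · intro h
          exact hd (mem_biUnion.mpr ⟨r, mem_range.mpr hr', mem_union_right _ h⟩)
      rw [hU, hV] at h4
      simp only [mem_filter, mem_univ, true_and, not_le] at h4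
      rw [abs_le]
      constructor <;> nlinarith [h4.1, h4.2]
    have h4 : (occ d S m (n * M) : ℝ) = ∑ r ∈ range M,
        (((range n).filter fun j => win (ext (win d L m)) M (r + j * M) ∈ S).card : ℝ) := by
      unfold occ
      rw [card_filter]
      push_cast
      rw [sum_blocks]
      refine sum_congr rfl fun r hr' => ?_
      rw [mem_range] at hr'
      rw [card_filter]
      push_cast
      refine sum_congr rfl fun j hj => ?_
      rw [mem_range] at hj
      rw [win_ext_win d (L := L)]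
      have : (j + 1) * M ≤ n * M := Nat.mul_le_mul_right M hj
      have : (j + 1) * M = j * M + M := by ring
      omega
    have h5 : |(occ d S m (n * M) : ℝ) - ms a S * (n * M)| ≤ δ' * (n * M) := by
      rw [h4]
      have h6 : ms a S * (n * M) = ∑ r ∈ range M, ms a S * n := by
        rw [sum_const, card_range, nsmul_eq_mul]
        ring
      rw [h6, ← sum_sub_distrib]
      refine (abs_sum_le_sum_abs _ _).trans ?_
      calc ∑ r ∈ range M, |(((range n).filter fun j =>
              win (ext (win d L m)) M (r + j * M) ∈ S).card : ℝ) - ms a S * n|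
          ≤ ∑ r ∈ range M, δ' * n := sum_le_sum fun r hr' => h3 r (mem_range.mp hr')
        _ = δ' * (n * M) := by
            rw [sum_const, card_range, nsmul_eq_mul]
            ring
    obtain ⟨R, hR⟩ : ∃ R, L = n * M + R := ⟨L - n * M, by omega⟩
    have hR2 : R ≤ 2 * M := by omega
    have h6 := occ_add d S m (n * M) R
    have h7 := occ_le d S (m + n * M) R
    have h8 : (occ d S m L : ℝ) = occ d S m (n * M) + occ d S (m + n * M) R := by
      rw [hR]
      exact_mod_cast h6
    have h9 : (L : ℝ) = n * M + R := by exact_mod_cast hR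
    have h10 : (R : ℝ) ≤ 2 * M := by exact_mod_cast hR2
    have h11 : (occ d S (m + n * M) R : ℝ) ≤ R := by exact_mod_cast h7
    have h12 : (0 : ℝ) ≤ occ d S (m + n * M) R := Nat.cast_nonneg _
    have h13 : 2 * M ≤ δ' * L := by
      rw [div_le_iff₀ hδ] at hL2
      rw [hδ']
      linarith
    have hp0 := ms_nonneg ha S
    have hp1 := ms_le_one ha ha1 S
    have hR0 : (0 : ℝ) ≤ R := Nat.cast_nonneg R
    have hnM : (0 : ℝ) ≤ n * M := by positivity
    rw [abs_le] at h5 ⊢
    rw [h8]
    have h14 : ms a S * L = ms a S * (n * M) + ms a S * R := by rw [h9]; ring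
    have h15 : δ' * (n * M) ≤ δ' * L := by
      rw [h9]
      nlinarith
    have h16 : 0 ≤ ms a S * R := by positivity
    have h17 : ms a S * R ≤ R := by nlinarith
    have h18 : δ * L = δ' * L + δ' * L := by rw [hδ']; ring
    constructor <;> linarith [h5.1, h5.2]

end Pool.Agent.H201.PW
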