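import Pool.Agent.H201.PW.Bad

/-!
# The local criterion for product weights, with averages over the length
-/

set_option autoImplicit false

namespace Pool.Agent.H201.PW

open Finset Filter Topology
open Pool.Agent.H201.NC

/-- an average over the lengths `k ≤ X` -/
def av (c : ℕ → ℝ) (X : ℕ) (F : ℕ → ℝ) : ℝ := ∑ k ∈ range (X + 1), c k * F k

theorem av_mono {c : ℕ → ℝ} (hc : ∀ k, 0 ≤ c k) {X : ℕ} {F G : ℕ → ℝ} (h : ∀ k, F k ≤ G k) :
    av c X F ≤ av c X G :=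
  sum_le_sum fun k _ => mul_le_mul_of_nonneg_left (h k) (hc k)

theorem av_add (c : ℕ → ℝ) (X : ℕ) (F G : ℕ → ℝ) :
    av c X (fun k => F k + G k) = av c X F + av c X G := by
  unfold av
  rw [← sum_add_distrib]
  exact sum_congr rfl fun k _ => by ring

theorem av_sub (c : ℕ → ℝ) (X : ℕ) (F G : ℕ → ℝ) :
    av c X (fun k => F k - G k) = av c X F - av c X G := by
  unfold av
  rw [← sum_sub_distrib]
  exact sum_congr rfl fun k _ => by ring

theorem av_mul (c : ℕ → ℝ) (X : ℕ) (t : ℝ) (F : ℕ → ℝ) :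
    av c X (fun k => t * F k) = t * av c X F := by
  unfold av
  rw [mul_sum]
  exact sum_congr rfl fun k _ => by ring

theorem av_nonneg {c : ℕ → ℝ} (hc : ∀ k, 0 ≤ c k) {X : ℕ} {F : ℕ → ℝ} (h : ∀ k, 0 ≤ F k) :
    0 ≤ av c X F := sum_nonneg fun k _ => mul_nonneg (hc k) (h k)

variable {A : Type*} [Inhabited A] [Fintype A] [DecidableEq A]

theorem core {a : A → ℝ} (ha : ∀ x, 0 ≤ a x) (ha1 : ∑ x, a x = 1) (d : ℕ → A) {c : ℕ → ℝ}
    (hc : ∀ k, 0 ≤ c k) {X : ℕ} {M M' L : ℕ} (hM : 0 < M) (hM' : 0 < M')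
    (W : Finset (Fin M → A)) (S : Finset (Fin M' → A)) {κ δ ε η T c0 : ℝ}
    (hT : av c X (fun k => (k : ℝ)) = T) (hc0 : av c X (fun _ => 1) = c0) (hT0 : 0 < T)
    (hκ : 0 < κ) (hκW : κ ≤ ms a W) (hδ : 0 < δ) (hδ1 : δ ≤ 1) (hη : 0 < η)
    (hδη : δ ≤ η * κ / 20)
    (hεδ : ε ≤ δ) (hL1 : Big M δ L) (hL2 : Big M' δ L)
    (hL3 : Real.exp ((ε - cc M δ) * L) + Real.exp ((ε - cc M' δ) * L) ≤ δ)
    (hL4 : L * c0 * (1 + 1 / κ) ≤ η / 2 * T)
    (h1 : (ms a W - δ) * T ≤ av c X (fun k => (occ d W 0 k : ℝ)))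
    (h2 : ∀ S' : Finset (Fin L → A), (∀ u ∈ S', win (ext u) M 0 ∈ W) →
      av c X (fun k => (occ d S' 0 k : ℝ)) ≤ Real.exp (ε * L) * ms a S' * T + ε * T) :
    |av c X (fun k => (occ d S 0 k : ℝ)) - ms a S * T| ≤ η * T := by
  classical
  obtain ⟨B1, hB1, hB1'⟩ := badset ha ha1 hM W hδ hδ1 hL1
  obtain ⟨B2, hB2, hB2'⟩ := badset ha ha1 hM' S hδ hδ1 hL2
  have hML : M ≤ L := hL1.2.2
  have hLpos : 0 < L := by omega
  set G : ℕ → Prop := fun m => win d L m ∉ B1 ∪ B2 with hG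
  have hcov := cover d W S hLpos G (pw := ms a W) (ps := ms a S) (δ := δ)
    (fun m hm => by
      rw [hG] at hm
      simp only [mem_union, not_or] at hm
      exact ⟨hB1' _ _ hm.1, hB2' _ _ hm.2⟩)
  choose C k0 k1 k2 k3 using fun R => hcov R 0
  set B := (B1 ∪ B2).filter fun u => win (ext u) M 0 ∈ W with hB
  have hnb : ∀ k, (nbad d W G 0 k : ℝ) ≤ occ d B 0 k := by
    intro k
    unfold nbad occ
    rw [Nat.cast_le]
    refine card_le_card fun i hi => ?_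
    rw [mem_filter] at hi ⊢
    refine ⟨hi.1, ?_⟩
    rw [hB, mem_filter]
    refine ⟨not_not.mp hi.2.2, ?_⟩
    rw [win_ext_win d (by omega), add_zero]
    exact hi.2.1
  have hL0 : (0 : ℝ) ≤ L := Nat.cast_nonneg L
  have hNB : av c X (fun k => (nbad d W G 0 k : ℝ)) ≤ 2 * δ * T := by
    have e1 := av_mono (X := X) hc hnb
    have e2 := h2 B (fun u hu => by rw [hB, mem_filter] at hu; exact hu.2)
    have e3 : ms a B ≤ Real.exp (-cc M δ * L) + Real.exp (-cc M' δ * L) := by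
      have e4 : ms a B ≤ ms a (B1 ∪ B2) := ms_mono ha (filter_subset _ _)
      have e5 := ms_union_le ha B1 B2
      linarith
    have e4 : Real.exp (ε * L) * ms a B ≤ δ := by
      refine le_trans ?_ hL3
      have e5 := mul_le_mul_of_nonneg_left e3 (Real.exp_pos (ε * L)).le
      refine e5.trans (le_of_eq ?_)
      rw [mul_add, ← Real.exp_add, ← Real.exp_add]
      congr 2 <;> ring
    have e5 : Real.exp (ε * L) * ms a B * T ≤ δ * T := mul_le_mul_of_nonneg_right e4 hT0.le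
    have e6 : ε * T ≤ δ * T := mul_le_mul_of_nonneg_right hεδ hT0.le
    linarith
  have hC0 : 0 ≤ av c X (fun k => (C k : ℝ)) := av_nonneg hc fun k => Nat.cast_nonneg _
  have hCT : av c X (fun k => (C k : ℝ)) ≤ T := by
    rw [← hT]
    exact av_mono hc fun k => by exact_mod_cast k0 k
  have hLc : av c X (fun _ => (L : ℝ)) = L * c0 := by
    rw [← hc0, ← av_mul]
    simp
  have m1 := av_mono (X := X) hc k1
  have m2 := av_mono (X := X) hc k2
  have m3 := av_mono (X := X) hc k3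
  rw [av_add, av_add, av_mul, hLc] at m1
  rw [av_add, av_add, av_mul, hLc, av_sub, hT] at m2
  rw [av_sub, av_mul, hLc] at m3
  have hp0 : 0 < ms a W := hκ.trans_le hκW
  have hδη' : δ ≤ η * ms a W / 20 := by
    refine hδη.trans ?_
    have := mul_le_mul_of_nonneg_left hκW hη.le
    linarith
  have k9 := arith hp0 (ms_le_one ha ha1 W) hδ hδη' hT0 (ms_nonneg ha S) (ms_le_one ha ha1 S)
    hC0 hCT h1 hNB m1 m2 m3
  refine k9.trans ?_
  have e1 : (L : ℝ) * c0 * (1 + 1 / ms a W) ≤ L * c0 * (1 + 1 / κ) := by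
    have e2 : 1 / ms a W ≤ 1 / κ := one_div_le_one_div_of_le hκ hκW
    have e3 : 0 ≤ c0 := by
      rw [← hc0]
      exact av_nonneg hc fun _ => zero_le_one
    have e4 : 0 ≤ (L : ℝ) * c0 := mul_nonneg hL0 e3
    nlinarith
  linarith

/-- constants which do not depend on the alphabet -/
theorem uniform (κ η : ℝ) (hκ : 0 < κ) (hη : 0 < η) (M M' : ℕ) (hM : 0 < M) (hM' : 0 < M') :
    ∃ ε : ℝ, 0 < ε ∧ ∃ δ : ℝ, 0 < δ ∧ ∃ L0 : ℕ, ∀ L ≥ L0, M ≤ L ∧ ∃ R : ℝ,
      ∀ (A : Type) (_ : Inhabited A) (_ : Fintype A) (_ : DecidableEq A) (a : A → ℝ),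
        (∀ x, 0 ≤ a x) → ∑ x, a x = 1 → ∀ (d : ℕ → A) (c : ℕ → ℝ), (∀ k, 0 ≤ c k) → ∀ (X : ℕ)
        (W : Finset (Fin M → A)), κ ≤ ms a W → 0 < av c X (fun k => (k : ℝ)) →
        R * av c X (fun _ => 1) ≤ av c X (fun k => (k : ℝ)) →
        (ms a W - δ) * av c X (fun k => (k : ℝ)) ≤ av c X (fun k => (occ d W 0 k : ℝ)) →
        (∀ S' : Finset (Fin L → A), (∀ u ∈ S', win (ext u) M 0 ∈ W) →
          av c X (fun k => (occ d S' 0 k : ℝ)) ≤
            Real.exp (ε * L) * ms a S' * av c X (fun k => (k : ℝ)) +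
              ε * av c X (fun k => (k : ℝ))) →
        ∀ S : Finset (Fin M' → A),
          |av c X (fun k => (occ d S 0 k : ℝ)) - ms a S * av c X (fun k => (k : ℝ))| ≤
            η * av c X (fun k => (k : ℝ)) := by
  set δ : ℝ := min 1 (η * κ / 20) with hδ
  have hδ0 : 0 < δ := lt_min one_pos (by positivity)
  have hδ1 : δ ≤ 1 := min_le_left _ _
  have hδη : δ ≤ η * κ / 20 := min_le_right _ _
  have c1 := cc_pos hM hδ0
  have c2 := cc_pos hM' hδ0
  set ε : ℝ := min δ (min (cc M δ / 2) (cc M' δ / 2)) with hε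
  have hε0 : 0 < ε := lt_min hδ0 (lt_min (by linarith) (by linarith))
  have hεδ : ε ≤ δ := min_le_left _ _
  have hε1 : ε ≤ cc M δ / 2 := (min_le_right _ _).trans (min_le_left _ _)
  have hε2 : ε ≤ cc M' δ / 2 := (min_le_right _ _).trans (min_le_right _ _)
  have hlim : ∀ {t : ℝ}, t < 0 → Tendsto (fun L : ℕ => Real.exp (t * L)) atTop (𝓝 0) := by
    intro t ht
    refine Real.tendsto_exp_atBot.comp ?_
    have : Tendsto (fun L : ℕ => (L : ℝ)) atTop atTop := tendsto_natCast_atTop_atTop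
    exact this.const_mul_atTop_of_neg ht
  have h3 : ∀ᶠ L : ℕ in atTop,
      Real.exp ((ε - cc M δ) * L) + Real.exp ((ε - cc M' δ) * L) ≤ δ := by
    have h4 := (hlim (t := ε - cc M δ) (by linarith)).add (hlim (t := ε - cc M' δ) (by linarith))
    rw [add_zero] at h4
    exact h4.eventually_le_const hδ0
  obtain ⟨L0, hL0⟩ := (h3.and ((eventually_big hM hδ0).and
    (eventually_big hM' hδ0))).exists_forall_of_atTop
  refine ⟨ε, hε0, δ, hδ0, L0, fun L hL => ?_⟩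
  obtain ⟨hL1, hL2, hL3⟩ := hL0 L hL
  refine ⟨hL2.2.2, L * (1 + 1 / κ) * (2 / η), ?_⟩
  intro A _ _ _ a ha ha1 d c hc X W hκW hT hR hW hS S
  refine core ha ha1 d hc hM hM' W S rfl rfl hT hκ hκW hδ0 hδ1 hη hδη hεδ hL2 hL3 hL1 ?_ hW hS
  have e1 : (L : ℝ) * av c X (fun _ => 1) * (1 + 1 / κ) =
      η / 2 * (L * (1 + 1 / κ) * (2 / η) * av c X (fun _ => 1)) := by
    field_simp
  rw [e1]
  exact mul_le_mul_of_nonneg_left hR (by positivity)

end Pool.Agent.H201.PW
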