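import Pool.Agent.H201.PW.Law

/-!
# Words and sets of words; the criterion as an equivalence
-/

set_option autoImplicit false

namespace Pool.Agent.H201.PW

open Finset Filter Topology
open Pool.Agent.H201.NC

variable {α : Type}

open Classical in
theorem joint_sum (w : ℕ → ℝ) (f : ℕ → α) (N k : ℕ) (Λ : Finset (Fin k → α))
    (S : Set (Fin k → α)) (hS : ∀ u, u ∈ S ↔ u ∈ Λ) :
    joint w f N k S = ∑ u ∈ Λ, joint w f N k {u} := by
  unfold joint
  rw [← sum_div]
  congr 1
  have h1 : ∀ n ∈ (Icc 1 N).filter (fun n => (fun i : Fin k => f (n + i)) ∈ S),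
      (fun i : Fin k => f (n + i)) ∈ Λ := by
    intro n hn
    exact (hS _).mp (mem_filter.mp hn).2
  rw [← sum_fiberwise_of_maps_to h1]
  refine sum_congr rfl fun u hu => ?_
  refine sum_congr ?_ fun _ _ => rfl
  ext n
  simp only [mem_filter]
  constructor
  · rintro ⟨⟨h2, _⟩, h3⟩
    exact ⟨h2, h3⟩
  · rintro ⟨h2, h3⟩
    have h4 : (fun i : Fin k => f (n + i)) = u := h3
    refine ⟨⟨h2, ?_⟩, h4⟩
    rw [h4]
    exact (hS _).mpr hu

theorem joint_finset (w : ℕ → ℝ) (f : ℕ → α) (N k : ℕ) (Λ : Finset (Fin k → α)) :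
    joint w f N k (Λ : Set (Fin k → α)) = ∑ u ∈ Λ, joint w f N k {u} :=
  joint_sum w f N k Λ _ fun _ => mem_coe

open Classical in
theorem product_sum (w : ℕ → ℝ) (f : ℕ → α) (N k : ℕ) (Λ : Finset (Fin k → α))
    (S : Set (Fin k → α)) (hS : ∀ u, u ∈ S ↔ u ∈ Λ) :
    product w f N k S = ∑ u ∈ Λ, product w f N k {u} := by
  unfold product
  rw [← sum_div]
  congr 1
  have h1 : ∀ m ∈ (Fintype.piFinset fun _ : Fin k => Icc 1 N).filter
      (fun m => (fun i => f (m i)) ∈ S), (fun i => f (m i)) ∈ Λ := by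
    intro n hn
    exact (hS _).mp (mem_filter.mp hn).2
  rw [← sum_fiberwise_of_maps_to h1]
  refine sum_congr rfl fun u hu => ?_
  refine sum_congr ?_ fun _ _ => rfl
  ext m
  simp only [mem_filter]
  constructor
  · rintro ⟨⟨h2, _⟩, h3⟩
    exact ⟨h2, h3⟩
  · rintro ⟨h2, h3⟩
    have h4 : (fun i => f (m i)) = u := h3
    refine ⟨⟨h2, ?_⟩, h4⟩
    rw [h4]
    exact (hS _).mpr hu

theorem product_finset (w : ℕ → ℝ) (f : ℕ → α) (N k : ℕ) (Λ : Finset (Fin k → α)) :
    product w f N k (Λ : Set (Fin k → α)) = ∑ u ∈ Λ, product w f N k {u} :=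
  product_sum w f N k Λ _ fun _ => mem_coe

theorem joint_mono {w : ℕ → ℝ} (hw : Weight w) (f : ℕ → α) (N k : ℕ) {S T : Set (Fin k → α)}
    (h : S ⊆ T) : joint w f N k S ≤ joint w f N k T := by
  classical
  unfold joint
  refine div_le_div_of_nonneg_right ?_ (sum_nonneg fun n _ => (hw.pos n).le)
  refine sum_le_sum_of_subset_of_nonneg ?_ fun n _ _ => (hw.pos n).le
  intro n hn
  rw [mem_filter] at hn ⊢
  exact ⟨hn.1, h hn.2⟩

theorem product_mono {w : ℕ → ℝ} (hw : Weight w) (f : ℕ → α) (N k : ℕ) {S T : Set (Fin k → α)}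
    (h : S ⊆ T) : product w f N k S ≤ product w f N k T := by
  classical
  unfold product
  refine div_le_div_of_nonneg_right ?_ (pow_nonneg (sum_nonneg fun n _ => (hw.pos n).le) _)
  refine sum_le_sum_of_subset_of_nonneg ?_ fun n _ _ => prod_nonneg fun _ _ => (hw.pos _).le
  intro n hn
  rw [mem_filter] at hn ⊢
  exact ⟨hn.1, h hn.2⟩

theorem joint_le_add {w : ℕ → ℝ} (hw : Weight w) (f : ℕ → α) (N k : ℕ)
    {S T U : Set (Fin k → α)} (h : S ⊆ T ∪ U) :
    joint w f N k S ≤ joint w f N k T + joint w f N k U := by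
  classical
  unfold joint
  rw [← add_div]
  refine div_le_div_of_nonneg_right ?_ (sum_nonneg fun n _ => (hw.pos n).le)
  refine le_trans (sum_le_sum_of_subset_of_nonneg (t := ((Icc 1 N).filter
    fun n => (fun i : Fin k => f (n + i)) ∈ T) ∪ ((Icc 1 N).filter
    fun n => (fun i : Fin k => f (n + i)) ∈ U)) ?_ fun n _ _ => (hw.pos n).le) ?_
  · intro n hn
    rw [mem_filter] at hn
    rw [mem_union, mem_filter, mem_filter]
    rcases h hn.2 with h1 | h1
    · exact Or.inl ⟨hn.1, h1⟩
    · exact Or.inr ⟨hn.1, h1⟩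
  · rw [← sum_union_inter]
    have : 0 ≤ ∑ n ∈ ((Icc 1 N).filter fun n => (fun i : Fin k => f (n + i)) ∈ T) ∩ ((Icc 1 N).filter
      fun n => (fun i : Fin k => f (n + i)) ∈ U), w n := sum_nonneg fun n _ => (hw.pos n).le
    linarith

open Classical in
/-- the words which occur -/
noncomputable def occurring (f : ℕ → α) (N k : ℕ) : Finset (Fin k → α) :=
  (Icc 1 N).image fun n => fun i : Fin k => f (n + i)

open Classical in
theorem joint_congr (w : ℕ → ℝ) (f : ℕ → α) (N k : ℕ) (S T : Set (Fin k → α))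
    (h : ∀ u ∈ occurring f N k, u ∈ S ↔ u ∈ T) : joint w f N k S = joint w f N k T := by
  unfold joint
  congr 1
  refine sum_congr ?_ fun _ _ => rfl
  ext n
  rw [mem_filter, mem_filter]
  refine and_congr_right fun hn => ?_
  exact h _ (mem_image_of_mem (fun n => fun i : Fin k => f (n + i)) hn)

open Classical in
/-- the occurring words of a set -/
noncomputable def part (f : ℕ → α) (N k : ℕ) (S : Set (Fin k → α)) : Finset (Fin k → α) :=
  (occurring f N k).filter fun u => u ∈ S

theorem mem_part {f : ℕ → α} {N k : ℕ} {S : Set (Fin k → α)} {u : Fin k → α} :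
    u ∈ part f N k S ↔ u ∈ occurring f N k ∧ u ∈ S := by
  unfold part
  simp

theorem joint_inter (w : ℕ → ℝ) (f : ℕ → α) (N k : ℕ) (S : Set (Fin k → α)) :
    joint w f N k S = joint w f N k ↑(part f N k S) := by
  refine joint_congr w f N k _ _ fun u hu => ?_
  rw [mem_coe, mem_part]
  exact ⟨fun h => ⟨hu, h⟩, fun h => h.2⟩

theorem joint_empty (w : ℕ → ℝ) (f : ℕ → α) (N k : ℕ) : joint w f N k ∅ = 0 := by
  have := joint_sum w f N k ∅ ∅ (by simp)
  rw [this, sum_empty]

theorem joint_pos_mem {w : ℕ → ℝ} (f : ℕ → α) {N k : ℕ} {u : Fin k → α}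
    (h : joint w f N k {u} ≠ 0) : u ∈ occurring f N k := by
  by_contra h1
  apply h
  rw [← joint_empty w f N k]
  refine joint_congr w f N k _ _ fun v hv => ?_
  constructor
  · intro hv2
    have h3 : v = u := hv2
    exact absurd (h3 ▸ hv) h1
  · intro h
    exact absurd h (Set.notMem_empty v)

/-- the joint laws and the product laws are asymptotically equal, in total variation -/
def Independent (w : ℕ → ℝ) (f : ℕ → α) (l : Filter ℕ) : Prop :=
  ∀ k : ℕ, 1 ≤ k → ∀ δ : ℝ, 0 < δ → ∀ᶠ N in l, ∀ S : Set (Fin k → α),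
    |joint w f N k S - product w f N k S| ≤ δ

/-- the joint law gives `W` at least its weight -/
def AtLeast (w : ℕ → ℝ) (f : ℕ → α) (l : Filter ℕ) {M : ℕ} (W : ℕ → Set (Fin M → α)) : Prop :=
  ∀ δ : ℝ, 0 < δ → ∀ᶠ N in l, product w f N M (W N) - δ ≤ joint w f N M (W N)

/-- the words of length `k` which begin with a word of `W` -/
def Begin {M : ℕ} (W : Set (Fin M → α)) (k : ℕ) : Set (Fin k → α) :=
  {u | ∃ h : M ≤ k, (fun j : Fin M => u (Fin.castLE h j)) ∈ W}

/-- absolute continuity with subexponential constants, on the words which begin with a word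
of `W` -/
def Subexponential (w : ℕ → ℝ) (f : ℕ → α) (l : Filter ℕ) {M : ℕ} (W : ℕ → Set (Fin M → α)) :
    Prop :=
  ∀ ε : ℝ, 0 < ε → ∀ K : ℕ, ∃ k ≥ K, ∀ᶠ N in l, ∀ S ⊆ Begin (W N) k,
    joint w f N k S ≤ Real.exp (ε * k) * product w f N k S + ε

/-- exponentially hot words which begin with a word of `W` are rare -/
def NoHotWords (w : ℕ → ℝ) (f : ℕ → α) (l : Filter ℕ) {M : ℕ} (W : ℕ → Set (Fin M → α)) :
    Prop :=
  ∀ ε : ℝ, 0 < ε → ∀ K : ℕ, ∃ k ≥ K, ∀ᶠ N in l,
    joint w f N k {u | u ∈ Begin (W N) k ∧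
      Real.exp (ε * k) * product w f N k {u} < joint w f N k {u}} ≤ ε

theorem NoHotWords.sub {w : ℕ → ℝ} (hw : Weight w) {f : ℕ → α} {l : Filter ℕ} {M : ℕ}
    {W : ℕ → Set (Fin M → α)} (h : NoHotWords w f l W) : Subexponential w f l W := by
  classical
  intro ε hε K
  obtain ⟨k, hk, h1⟩ := h ε hε K
  refine ⟨k, hk, ?_⟩
  filter_upwards [h1] with N hN S hS
  set H : Set (Fin k → α) := {u | u ∈ Begin (W N) k ∧
      Real.exp (ε * k) * product w f N k {u} < joint w f N k {u}} with hH
  have e1 := joint_le_add hw f N k (S := S) (T := S \ H) (U := H) (fun u hu => by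
    by_cases huH : u ∈ H
    · exact Or.inr huH
    · exact Or.inl ⟨hu, huH⟩)
  have e2 : joint w f N k (S \ H) ≤ Real.exp (ε * k) * product w f N k S := by
    rw [joint_inter, joint_finset]
    calc ∑ u ∈ part f N k (S \ H), joint w f N k {u}
        ≤ ∑ u ∈ part f N k (S \ H), Real.exp (ε * k) * product w f N k {u} := by
          refine sum_le_sum fun u hu => ?_
          have hu2 : u ∈ S \ H := (mem_part.mp hu).2
          have : ¬ (u ∈ Begin (W N) k ∧
            Real.exp (ε * k) * product w f N k {u} < joint w f N k {u}) := hu2.2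
          rw [not_and, not_lt] at this
          exact this (hS hu2.1)
      _ = Real.exp (ε * k) * product w f N k ↑(part f N k (S \ H)) := by
          rw [product_finset, mul_sum]
      _ ≤ Real.exp (ε * k) * product w f N k S := by
          refine mul_le_mul_of_nonneg_left (product_mono hw f N k ?_) (Real.exp_pos _).le
          intro u hu
          exact ((mem_part.mp (mem_coe.mp hu)).2).1
  linarith

theorem Independent.noHotWords {w : ℕ → ℝ} (hw : Weight w) {f : ℕ → α} {l : Filter ℕ}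
    {M : ℕ} (W : ℕ → Set (Fin M → α)) (h : Independent w f l) : NoHotWords w f l W := by
  classical
  intro ε hε K
  obtain ⟨k0, hk0⟩ : ∃ k0 : ℕ, Real.log 2 / ε ≤ k0 := exists_nat_ge _
  set k := max (max K 1) k0 with hk
  have hk1 : 1 ≤ k := (le_max_right _ _).trans (le_max_left _ _)
  refine ⟨k, (le_max_left _ _).trans (le_max_left _ _), ?_⟩
  have h2 : 2 ≤ Real.exp (ε * k) := by
    have e1 : (k0 : ℝ) ≤ k := by exact_mod_cast le_max_right _ _
    have e2 : Real.log 2 ≤ ε * k := by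
      rw [div_le_iff₀ hε] at hk0
      nlinarith
    calc (2 : ℝ) = Real.exp (Real.log 2) := (Real.exp_log (by norm_num)).symm
      _ ≤ _ := Real.exp_le_exp.mpr e2
  filter_upwards [h k hk1 (ε / 2) (by positivity)] with N hN
  set H : Set (Fin k → α) := {u | u ∈ Begin (W N) k ∧
      Real.exp (ε * k) * product w f N k {u} < joint w f N k {u}} with hH
  set Λ := part f N k H with hΛ
  have e1 : joint w f N k H = joint w f N k ↑Λ := joint_inter w f N k H
  have e2 : 2 * product w f N k ↑Λ ≤ joint w f N k ↑Λ := by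
    rw [product_finset, joint_finset, mul_sum]
    refine sum_le_sum fun u hu => ?_
    have hu2 : u ∈ H := (mem_part.mp hu).2
    have e3 : Real.exp (ε * k) * product w f N k {u} < joint w f N k {u} := hu2.2
    have e4 : 2 * product w f N k {u} ≤ Real.exp (ε * k) * product w f N k {u} :=
      mul_le_mul_of_nonneg_right h2 (product_nonneg hw f N k {u})
    linarith
  have e3 := (abs_le.mp (hN ↑Λ)).2
  rw [e1]
  linarith

/-- **The criterion.** -/
theorem independent_iff {w : ℕ → ℝ} (hw : Weight w) (f : ℕ → α) {l : Filter ℕ} (hl : l ≤ atTop)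
    {M : ℕ} (hM : 0 < M) {W : ℕ → Set (Fin M → α)} {κ : ℝ} (hκ : 0 < κ)
    (hW : ∀ᶠ N in l, κ ≤ product w f N M (W N)) :
    (Independent w f l ↔ AtLeast w f l W ∧ Subexponential w f l W) ∧
    (Independent w f l ↔ AtLeast w f l W ∧ NoHotWords w f l W) := by
  have h1 : Independent w f l → AtLeast w f l W := by
    intro h δ hδ
    filter_upwards [h M hM δ hδ] with N hN
    have := (abs_le.mp (hN (W N))).1
    linarith
  have h2 : AtLeast w f l W ∧ Subexponential w f l W → Independent w f l := by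
    rintro ⟨h3, h4⟩ k hk δ hδ
    exact criterion hw f hl hM hκ hW h3 (fun ε hε K => h4 ε hε K) hk hδ
  exact ⟨⟨fun h => ⟨h1 h, (h.noHotWords hw W).sub hw⟩, h2⟩,
    ⟨fun h => ⟨h1 h, h.noHotWords hw W⟩, fun h => h2 ⟨h.1, h.2.sub hw⟩⟩⟩

/-- one place: the two laws are equal -/
theorem one_place (w : ℕ → ℝ) (f : ℕ → α) (N : ℕ) (V : Set α) :
    joint w f N 1 {u | u 0 ∈ V} = product w f N 1 {u | u 0 ∈ V} := by
  classical
  unfold joint product
  rw [pow_one]
  congr 1
  refine sum_nbij' (fun n => fun _ : Fin 1 => n) (fun m => m 0) ?_ ?_ ?_ ?_ ?_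
  · intro n hn
    rw [mem_filter] at hn ⊢
    rw [Fintype.mem_piFinset]
    exact ⟨fun _ => hn.1, hn.2⟩
  · intro m hm
    rw [mem_filter] at hm ⊢
    rw [Fintype.mem_piFinset] at hm
    exact ⟨hm.1 0, hm.2⟩
  · intro n _
    rfl
  · intro m _
    funext i
    rw [Fin.eq_zero i]
  · intro n _
    simp

end Pool.Agent.H201.PW
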