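import Pool.Agent.H201.PW.Crit

/-!
# The sum over all tuples of values
-/

set_option autoImplicit false

namespace Pool.Agent.H201.PW

open Finset Filter Topology
open Pool.Agent.H201.NC

/-- the natural weights -/
def one : ℕ → ℝ := fun _ => 1

theorem weight_one : Weight one := by
  refine ⟨fun _ => one_pos, fun _ _ _ => le_rfl, ?_⟩
  have : (fun N : ℕ => ∑ n ∈ Icc 1 N, one n) = fun N : ℕ => (N : ℝ) := by
    funext N
    simp [one]
  rw [this]
  exact tendsto_natCast_atTop_atTop

theorem sum_one (N : ℕ) : ∑ n ∈ Icc 1 N, one n = N := by simp [one]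

theorem joint_single (f : ℕ → ℕ) (N k : ℕ) (u : Fin k → ℕ) :
    joint one f N k {u} =
      (1 / (N : ℝ)) * (((Icc 1 N).filter fun n => ∀ i : Fin k, f (n + (i : ℕ)) = u i).card : ℝ) := by
  classical
  unfold joint
  rw [sum_one]
  unfold one
  rw [sum_const, nsmul_eq_mul, mul_one, div_eq_inv_mul, one_div]
  congr 3
  ext n
  simp only [mem_filter, Set.mem_singleton_iff, funext_iff]

theorem product_single (f : ℕ → ℕ) (N k : ℕ) (u : Fin k → ℕ) :
    product one f N k {u} =
      ∏ i : Fin k, ((1 / (N : ℝ)) * (((Icc 1 N).filter fun n => f n = u i).card : ℝ)) := by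
  classical
  unfold product
  rw [sum_one]
  unfold one
  simp only [prod_const_one]
  rw [prod_mul_distrib, prod_const, card_univ, Fintype.card_fin]
  rw [sum_const, nsmul_eq_mul, mul_one, div_eq_inv_mul, one_div, inv_pow]
  congr 1
  rw [← Nat.cast_prod, ← Fintype.card_piFinset]
  congr 2
  ext m
  simp only [mem_filter, Set.mem_singleton_iff, funext_iff, Fintype.mem_piFinset]
  constructor
  · rintro ⟨h1, h2⟩ i
    exact ⟨h1 i, h2 i⟩
  · intro h
    exact ⟨fun i => (h i).1, fun i => (h i).2⟩

/-- the sum of the problem -/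
noncomputable def total (f : ℕ → ℕ) (k N : ℕ) : ℝ :=
  ∑' ℓ : Fin k → ℕ,
    |(1 / (N : ℝ)) * (((Icc 1 N).filter fun n => ∀ i : Fin k, f (n + (i : ℕ)) = ℓ i + 1).card : ℝ) -
      ∏ i : Fin k, ((1 / (N : ℝ)) * (((Icc 1 N).filter fun n => f n = ℓ i + 1).card : ℝ))|

theorem total_eq (f : ℕ → ℕ) (k N : ℕ) : total f k N =
    ∑' ℓ : Fin k → ℕ, |joint one f N k {fun i => ℓ i + 1} - product one f N k {fun i => ℓ i + 1}| := by
  unfold total
  simp only [joint_single, product_single]

theorem total_nonneg (f : ℕ → ℕ) (k N : ℕ) : 0 ≤ total f k N :=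
  tsum_nonneg fun _ => abs_nonneg _

theorem sum_abs_le (f : ℕ → ℕ) {k N : ℕ} {δ : ℝ}
    (h : ∀ S : Set (Fin k → ℕ), |joint one f N k S - product one f N k S| ≤ δ)
    (Λ : Finset (Fin k → ℕ)) :
    ∑ u ∈ Λ, |joint one f N k {u} - product one f N k {u}| ≤ 2 * δ := by
  classical
  have h1 : ∀ Λ' : Finset (Fin k → ℕ),
      |∑ u ∈ Λ', (joint one f N k {u} - product one f N k {u})| ≤ δ := by
    intro Λ'
    rw [sum_sub_distrib, ← joint_finset, ← product_finset]
    exact h _
  set P := Λ.filter fun u => 0 ≤ joint one f N k {u} - product one f N k {u} with hP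
  set Q := Λ.filter fun u => ¬ 0 ≤ joint one f N k {u} - product one f N k {u} with hQ
  have h2 : ∑ u ∈ Λ, |joint one f N k {u} - product one f N k {u}| =
      ∑ u ∈ P, |joint one f N k {u} - product one f N k {u}| +
        ∑ u ∈ Q, |joint one f N k {u} - product one f N k {u}| :=
    (sum_filter_add_sum_filter_not Λ _ _).symm
  have h3 : ∑ u ∈ P, |joint one f N k {u} - product one f N k {u}| =
      ∑ u ∈ P, (joint one f N k {u} - product one f N k {u}) :=
    sum_congr rfl fun u hu => abs_of_nonneg (mem_filter.mp hu).2
  have h4 : ∑ u ∈ Q, |joint one f N k {u} - product one f N k {u}| =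
      -∑ u ∈ Q, (joint one f N k {u} - product one f N k {u}) := by
    rw [← sum_neg_distrib]
    exact sum_congr rfl fun u hu => abs_of_neg (not_le.mp (mem_filter.mp hu).2)
  have h5 := (abs_le.mp (h1 P)).2
  have h6 := (abs_le.mp (h1 Q)).1
  rw [h2, h3, h4]
  linarith

/-- the tuples of values which contain a zero -/
def Zeros (k : ℕ) : Set (Fin k → ℕ) := {u | ∃ i, u i = 0}

theorem joint_zeros {f : ℕ → ℕ} (hf : ∀ n, 1 ≤ n → f n = 0 → n = 1) (N k : ℕ) :
    joint one f N k (Zeros k) ≤ 1 / N := by
  classical
  unfold joint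
  rw [sum_one]
  unfold one
  rw [sum_const, nsmul_eq_mul, mul_one]
  refine div_le_div_of_nonneg_right ?_ (Nat.cast_nonneg _)
  have : ((Icc 1 N).filter fun n => (fun i : Fin k => f (n + i)) ∈ Zeros k) ⊆ {1} := by
    intro n hn
    simp only [mem_filter, mem_Icc] at hn
    obtain ⟨i, hi⟩ := hn.2
    have := hf (n + i) (by omega) hi
    rw [mem_singleton]
    omega
  have h2 := card_le_card this
  rw [card_singleton] at h2
  exact_mod_cast h2

theorem product_zeros {f : ℕ → ℕ} (hf : ∀ n, 1 ≤ n → f n = 0 → n = 1) {N : ℕ} (hN : 1 ≤ N)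
    (k : ℕ) : product one f N k (Zeros k) ≤ k / N := by
  classical
  have hN0 : (0 : ℝ) < N := by exact_mod_cast hN
  unfold product
  rw [sum_one]
  unfold one
  simp only [prod_const_one]
  rw [sum_const, nsmul_eq_mul, mul_one]
  have h1 : ((Fintype.piFinset fun _ : Fin k => Icc 1 N).filter
      fun m => (fun i => f (m i)) ∈ Zeros k) ⊆ (univ : Finset (Fin k)).biUnion fun i =>
        Fintype.piFinset (Function.update (fun _ : Fin k => Icc 1 N) i {1}) := by
    intro m hm
    simp only [mem_filter, Fintype.mem_piFinset, mem_Icc] at hm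
    obtain ⟨i, hi⟩ := hm.2
    have h2 := hf (m i) (hm.1 i).1 hi
    rw [mem_biUnion]
    refine ⟨i, mem_univ _, ?_⟩
    rw [Fintype.mem_piFinset]
    intro j
    by_cases hj : j = i
    · subst hj
      rw [Function.update_self, mem_singleton]
      exact h2
    · rw [Function.update_of_ne hj, mem_Icc]
      exact hm.1 j
  have h2 : (((Fintype.piFinset fun _ : Fin k => Icc 1 N).filter
      fun m => (fun i => f (m i)) ∈ Zeros k).card : ℝ) ≤ k * (N : ℝ) ^ k / N := by
    have h3 := (card_le_card h1).trans card_biUnion_le
    have h4 : ∀ i : Fin k, ((Fintype.piFinset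
        (Function.update (fun _ : Fin k => Icc 1 N) i {1})).card : ℝ) = (N : ℝ) ^ k / N := by
      intro i
      rw [Fintype.card_piFinset, Nat.cast_prod]
      have h5 : ∀ j, ((Function.update (fun _ : Fin k => Icc 1 N) i {1} j).card : ℝ) =
          Function.update (fun _ : Fin k => (N : ℝ)) i 1 j := by
        intro j
        by_cases hj : j = i
        · subst hj
          rw [Function.update_self, Function.update_self, card_singleton, Nat.cast_one]
        · rw [Function.update_of_ne hj, Function.update_of_ne hj, Nat.card_Icc]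
          simp
      simp only [h5]
      rw [prod_update_of_mem (mem_univ i), one_mul, prod_const]
      have h6 : (univ \ {i} : Finset (Fin k)).card = k - 1 := by
        rw [card_sdiff_of_subset (subset_univ _), card_univ, Fintype.card_fin, card_singleton]
      rw [h6, eq_div_iff hN0.ne', ← pow_succ]
      congr 1
      have := i.2
      omega
    calc (((Fintype.piFinset fun _ : Fin k => Icc 1 N).filter
      fun m => (fun i => f (m i)) ∈ Zeros k).card : ℝ) ≤ ∑ i : Fin k, ((Fintype.piFinset
        (Function.update (fun _ : Fin k => Icc 1 N) i {1})).card : ℝ) := by exact_mod_cast h3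
      _ = k * ((N : ℝ) ^ k / N) := by
          simp only [h4]
          rw [sum_const, card_univ, Fintype.card_fin, nsmul_eq_mul]
      _ = _ := by ring
  rw [div_le_div_iff₀ (by positivity) hN0]
  rw [le_div_iff₀ hN0] at h2
  exact h2

theorem abs_le_total {f : ℕ → ℕ} (hf : ∀ n, 1 ≤ n → f n = 0 → n = 1) {k N : ℕ} (hN : 1 ≤ N)
    (S : Set (Fin k → ℕ)) :
    |joint one f N k S - product one f N k S| ≤ total f k N + (1 / N + k / N) := by
  classical
  set D : Finset (Fin k → ℕ) := Fintype.piFinset fun _ => (Icc 1 (N + k)).image f with hD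
  set Λ := D.filter fun u => u ∈ S with hΛ
  have hD1 : ∀ u ∈ occurring f N k, u ∈ D := by
    intro u hu
    simp only [occurring, mem_image] at hu
    obtain ⟨n, hn, rfl⟩ := hu
    rw [mem_Icc] at hn
    rw [hD, Fintype.mem_piFinset]
    intro i
    have := i.2
    exact mem_image_of_mem f (mem_Icc.mpr ⟨by omega, by omega⟩)
  have h1 : joint one f N k S = ∑ u ∈ Λ, joint one f N k {u} := by
    rw [← joint_finset]
    refine joint_congr one f N k _ _ fun u hu => ?_
    rw [mem_coe, hΛ, mem_filter]
    exact ⟨fun h => ⟨hD1 u hu, h⟩, fun h => h.2⟩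
  have h2 : product one f N k S = ∑ u ∈ Λ, product one f N k {u} := by
    rw [← product_finset]
    unfold product
    congr 1
    refine sum_congr ?_ fun _ _ => rfl
    ext m
    simp only [mem_filter, Fintype.mem_piFinset, mem_coe]
    refine and_congr_right fun hm => ?_
    rw [hΛ, mem_filter]
    refine ⟨fun h => ⟨?_, h⟩, fun h => h.2⟩
    rw [hD, Fintype.mem_piFinset]
    intro i
    have := mem_Icc.mp (hm i)
    exact mem_image_of_mem f (mem_Icc.mpr ⟨by omega, by omega⟩)
  rw [h1, h2, ← sum_sub_distrib]
  refine (abs_sum_le_sum_abs _ _).trans ?_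
  rw [← sum_filter_add_sum_filter_not Λ fun u => u ∈ Zeros k]
  have h3 : ∑ u ∈ Λ.filter (fun u => u ∈ Zeros k),
      |joint one f N k {u} - product one f N k {u}| ≤ 1 / N + k / N := by
    calc ∑ u ∈ Λ.filter (fun u => u ∈ Zeros k), |joint one f N k {u} - product one f N k {u}|
        ≤ ∑ u ∈ Λ.filter (fun u => u ∈ Zeros k),
            (joint one f N k {u} + product one f N k {u}) := by
          refine sum_le_sum fun u _ => ?_
          have e1 := joint_nonneg weight_one f N k {u}
          have e2 := product_nonneg weight_one f N k {u}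
          rw [abs_le]
          constructor <;> linarith
      _ = joint one f N k ↑(Λ.filter fun u => u ∈ Zeros k) +
            product one f N k ↑(Λ.filter fun u => u ∈ Zeros k) := by
          rw [sum_add_distrib, joint_finset, product_finset]
      _ ≤ joint one f N k (Zeros k) + product one f N k (Zeros k) := by
          refine add_le_add (joint_mono weight_one f N k ?_) (product_mono weight_one f N k ?_)
          · intro u hu
            exact (mem_filter.mp (mem_coe.mp hu)).2
          · intro u hu
            exact (mem_filter.mp (mem_coe.mp hu)).2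
      _ ≤ _ := add_le_add (joint_zeros hf N k) (product_zeros hf hN k)
  have h4 : ∑ u ∈ Λ.filter (fun u => ¬ u ∈ Zeros k),
      |joint one f N k {u} - product one f N k {u}| ≤ total f k N := by
    rw [total_eq]
    set F : (Fin k → ℕ) → ℝ := fun ℓ =>
      |joint one f N k {fun i => ℓ i + 1} - product one f N k {fun i => ℓ i + 1}| with hF
    have hsum : Summable F := by
      refine summable_of_hasFiniteSupport ?_
      refine Set.Finite.subset (Finset.finite_toSet (D.image fun u i => u i - 1)) ?_
      intro ℓ hℓ
      rw [mem_coe, mem_image]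
      refine ⟨fun i => ℓ i + 1, ?_, by funext i; simp⟩
      by_contra hnot
      apply hℓ
      have e1 : joint one f N k {fun i => ℓ i + 1} = 0 := by
        by_contra h
        exact hnot (hD1 _ (joint_pos_mem f h))
      have e2 : product one f N k {fun i => ℓ i + 1} = 0 := by
        unfold product
        have : ((Fintype.piFinset fun _ : Fin k => Icc 1 N).filter
            fun m => (fun i => f (m i)) ∈ ({fun i => ℓ i + 1} : Set (Fin k → ℕ))) = ∅ := by
          rw [filter_eq_empty_iff]
          intro m hm hm2
          apply hnot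
          have h5 : (fun i => f (m i)) = fun i => ℓ i + 1 := hm2
          rw [← h5, hD, Fintype.mem_piFinset]
          intro i
          rw [Fintype.mem_piFinset] at hm
          have := mem_Icc.mp (hm i)
          exact mem_image_of_mem f (mem_Icc.mpr ⟨by omega, by omega⟩)
        have h6 : (∑ m ∈ (Fintype.piFinset fun _ : Fin k => Icc 1 N).filter
            (fun m => (fun i => f (m i)) ∈ ({fun i => ℓ i + 1} : Set (Fin k → ℕ))),
              ∏ i, one (m i)) = 0 := by
          rw [this, sum_empty]
        refine (congrArg (fun x => x / (∑ n ∈ Icc 1 N, one n) ^ k) ?_).trans (zero_div _)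
        refine Eq.trans ?_ h6
        refine sum_congr ?_ fun _ _ => rfl
        ext m
        simp only [mem_filter]
      rw [hF]
      simp only [e1, e2, sub_zero, abs_zero]
    have h7 : ∑ u ∈ Λ.filter (fun u => ¬ u ∈ Zeros k),
        |joint one f N k {u} - product one f N k {u}| =
        ∑ ℓ ∈ (Λ.filter fun u => ¬ u ∈ Zeros k).image (fun u i => u i - 1), F ℓ := by
      have hinj : ∀ u ∈ Λ.filter (fun u => ¬ u ∈ Zeros k), (fun i => u i - 1 + 1) = u := by
        intro u hu
        have h8 := (mem_filter.mp hu).2
        funext i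
        have : u i ≠ 0 := fun h => h8 ⟨i, h⟩
        omega
      rw [sum_image]
      · refine sum_congr rfl fun u hu => ?_
        rw [hF]
        simp only
        rw [hinj u hu]
      · intro u hu v hv huv
        rw [← hinj u hu, ← hinj v hv]
        funext i
        have := congrFun huv i
        simp only at this
        rw [this]
    rw [h7]
    exact hsum.sum_le_tsum _ fun _ _ => abs_nonneg _
  linarith

theorem total_iff {f : ℕ → ℕ} (hf : ∀ n, 1 ≤ n → f n = 0 → n = 1) :
    (∀ k : ℕ, Tendsto (fun N => total f k N) atTop (𝓝 0)) ↔ Independent one f atTop := by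
  constructor
  · intro h k hk δ hδ
    have h1 : Tendsto (fun N : ℕ => (1 : ℝ) / N + k / N) atTop (𝓝 (0 + 0)) := by
      refine Tendsto.add ?_ ?_
      · exact tendsto_const_div_atTop_nhds_zero_nat 1
      · exact tendsto_const_div_atTop_nhds_zero_nat (k : ℝ)
    have h2 := (h k).add h1
    rw [add_zero, add_zero] at h2
    filter_upwards [h2.eventually_le_const hδ, eventually_ge_atTop 1] with N hN hN1 S
    exact (abs_le_total hf hN1 S).trans hN
  · intro h k
    rcases Nat.eq_zero_or_pos k with rfl | hk
    · refine tendsto_const_nhds.congr' ?_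
      filter_upwards [eventually_ge_atTop 1] with N hN
      have hN0 : (N : ℝ) ≠ 0 := by
        have : (0 : ℝ) < N := by exact_mod_cast hN
        exact this.ne'
      symm
      unfold total
      rw [tsum_fintype]
      simp [hN0]
    · rw [Metric.tendsto_nhds]
      intro ε hε
      filter_upwards [h k hk (ε / 4) (by positivity)] with N hN
      rw [Real.dist_eq, sub_zero, abs_of_nonneg (total_nonneg f k N)]
      have h1 : total f k N ≤ 2 * (ε / 4) := by
        rw [total_eq]
        refine Real.tsum_le_of_sum_le (fun _ => abs_nonneg _) fun Λ => ?_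
        classical
        have h2 := sum_abs_le f hN (Λ.image fun ℓ i => ℓ i + 1)
        rw [sum_image] at h2
        · exact h2
        · intro u _ v _ huv
          funext i
          have := congrFun huv i
          simp only at this
          omega
      linarith

end Pool.Agent.H201.PW
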