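import Pool.Agent.H201.PW.Arith

/-!
# The law of `(f n, …, f (n + k - 1))` and the product law
-/

set_option autoImplicit false

namespace Pool.Agent.H201.PW

open Finset Filter Topology
open Pool.Agent.H201.NC

variable {α : Type}

open Classical in
/-- the law of `(f n, …, f (n + k - 1))`, where `n ≤ N` is chosen with the weights `w n` -/
noncomputable def joint (w : ℕ → ℝ) (f : ℕ → α) (N k : ℕ) (S : Set (Fin k → α)) : ℝ :=
  (∑ n ∈ (Icc 1 N).filter fun n => (fun i : Fin k => f (n + i)) ∈ S, w n) / ∑ n ∈ Icc 1 N, w n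

open Classical in
/-- the law of `(f m_1, …, f m_k)`, where the `m_i ≤ N` are chosen independently with the
weights `w m_i` -/
noncomputable def product (w : ℕ → ℝ) (f : ℕ → α) (N k : ℕ) (S : Set (Fin k → α)) : ℝ :=
  (∑ m ∈ (Fintype.piFinset fun _ : Fin k => Icc 1 N).filter fun m => (fun i => f (m i)) ∈ S,
    ∏ i, w (m i)) / (∑ n ∈ Icc 1 N, w n) ^ k

/-- `w` is positive and nonincreasing and has a divergent sum -/
structure Weight (w : ℕ → ℝ) : Prop where
  pos : ∀ n, 0 < w n
  anti : Antitone w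
  lim : Tendsto (fun N => ∑ n ∈ Icc 1 N, w n) atTop atTop

theorem Weight.sum_pos {w : ℕ → ℝ} (hw : Weight w) {N : ℕ} (hN : 1 ≤ N) :
    0 < ∑ n ∈ Icc 1 N, w n :=
  Finset.sum_pos (fun n _ => hw.pos n) ⟨1, mem_Icc.mpr ⟨le_rfl, hN⟩⟩

theorem joint_nonneg {w : ℕ → ℝ} (hw : Weight w) (f : ℕ → α) (N k : ℕ) (S : Set (Fin k → α)) :
    0 ≤ joint w f N k S :=
  div_nonneg (sum_nonneg fun n _ => (hw.pos n).le) (sum_nonneg fun n _ => (hw.pos n).le)

theorem product_nonneg {w : ℕ → ℝ} (hw : Weight w) (f : ℕ → α) (N k : ℕ)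
    (S : Set (Fin k → α)) : 0 ≤ product w f N k S :=
  div_nonneg (sum_nonneg fun _ _ => prod_nonneg fun _ _ => (hw.pos _).le)
    (pow_nonneg (sum_nonneg fun n _ => (hw.pos n).le) _)

open Classical in
/-- **The local criterion for arithmetic functions.** -/
theorem criterion {w : ℕ → ℝ} (hw : Weight w) (f : ℕ → α) {l : Filter ℕ} (hl : l ≤ atTop)
    {M : ℕ} (hM : 0 < M) {W : ℕ → Set (Fin M → α)} {κ : ℝ} (hκ : 0 < κ)
    (hW : ∀ᶠ N in l, κ ≤ product w f N M (W N))
    (h1 : ∀ δ : ℝ, 0 < δ → ∀ᶠ N in l, product w f N M (W N) - δ ≤ joint w f N M (W N))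
    (h2 : ∀ ε : ℝ, 0 < ε → ∀ K : ℕ, ∃ k ≥ K, ∀ᶠ N in l, ∀ S : Set (Fin k → α),
      (∀ u ∈ S, ∃ h : M ≤ k, (fun j : Fin M => u (Fin.castLE h j)) ∈ W N) →
        joint w f N k S ≤ Real.exp (ε * k) * product w f N k S + ε)
    {k' : ℕ} (hk' : 0 < k') {η : ℝ} (hη : 0 < η) :
    ∀ᶠ N in l, ∀ S : Set (Fin k' → α), |joint w f N k' S - product w f N k' S| ≤ η := by
  obtain ⟨ε, hε, δ, hδ, L0, hL0⟩ := uniform κ η hκ hη M k' hM hk'
  obtain ⟨k, hk, hk2⟩ := h2 ε hε L0
  obtain ⟨hMk, R, hR⟩ := hL0 k hk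
  have hT : ∀ᶠ N in l, R * w 1 ≤ ∑ n ∈ Icc 1 N, w n :=
    (hw.lim.eventually_ge_atTop (R * w 1)).filter_mono hl
  have hN1 : ∀ᶠ N in l, 1 ≤ N := (eventually_ge_atTop 1).filter_mono hl
  filter_upwards [hW, h1 δ hδ, hk2, hT, hN1] with N e1 e2 e3 e4 e5
  intro S
  have hTpos := hw.sum_pos e5
  set T : ℝ := ∑ n ∈ Icc 1 N, w n with hTdef
  set X : ℕ := N + k + k' with hX
  have hinh : Inhabited {x // x ∈ vals f X} := ⟨letter f X (f 1)⟩
  have a1 : av (cw w N) N (fun k => (k : ℝ)) = T := by
    rw [av_cw w _ e5]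
    simp only [Nat.cast_zero, mul_zero, add_zero]
    rw [hTdef, ← sum_range_eq_Icc]
    refine sum_congr rfl fun i _ => ?_
    push_cast
    ring
  have a2 : av (cw w N) N (fun _ => (1 : ℝ)) = w 1 := by
    rw [av_cw w _ e5]
    simp
  have a3 : ∀ (j : ℕ) (S : Set (Fin j → α)), j ≤ k + k' →
      av (cw w N) N (fun K => (occ (fun n => letter f X (f (n + 1))) (words f X S) 0 K : ℝ)) =
        joint w f N j S * T := by
    intro j S hj
    rw [av_words w f e5 (by omega) S]
    unfold joint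
    rw [div_mul_cancel₀ _ hTpos.ne']
  have a4 : ∀ (j : ℕ) (S : Set (Fin j → α)),
      ms (lw w f X N) (words f X S) = product w f N j S := by
    intro j S
    rw [ms_words w f (by omega) S]
    rfl
  have hmain := hR {x // x ∈ vals f X} inferInstance inferInstance inferInstance
    (lw w f X N) (fun x => lw_nonneg (fun n => (hw.pos n).le) f X N x) (sum_lw f X hTpos)
    (fun n => letter f X (f (n + 1))) (cw w N) (cw_nonneg hw.anti (fun n => (hw.pos n).le) N) N
    (words f X (W N)) (by rw [a4]; exact e1) (by rw [a1]; exact hTpos)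
    (by rw [a1, a2]; exact e4)
    (by
      rw [a1, a4, a3 M (W N) (by omega)]
      exact mul_le_mul_of_nonneg_right e2 hTpos.le)
    (by
      intro S' hS'
      rw [a1]
      -- the set of words
      set S1 : Set (Fin k → α) := {v | ∃ u ∈ S', (fun i => (u i).1) = v} with hS1
      have b1 : words f X S1 = S' := by
        refine Finset.ext fun u => ?_
        rw [mem_words]
        constructor
        · rintro ⟨u', hu', h⟩
          have : u' = u := by
            funext i
            exact Subtype.ext (congrFun h i)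
          rw [← this]
          exact hu'
        · intro hu
          exact ⟨u, hu, rfl⟩
      have b2 := e3 S1 (by
        rintro v ⟨u, hu, rfl⟩
        refine ⟨hMk, ?_⟩
        have := mem_words.mp (hS' u hu)
        have h3 : (fun i => (win (NC.ext u) M 0 i).1) =
            fun j : Fin M => (u (Fin.castLE hMk j)).1 := by
          funext i
          unfold win NC.ext
          rw [dif_pos (by omega : (0 : ℕ) + i < k)]
          congr 2
          exact Fin.ext (by simp)
        rw [h3] at this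
        exact this)
      rw [← b1, a4, a3 k S1 (by omega)]
      have := mul_le_mul_of_nonneg_right b2 hTpos.le
      linarith)
    (words f X S)
  rw [a1, a4, a3 k' S (by omega), ← sub_mul, abs_mul, abs_of_pos hTpos] at hmain
  exact le_of_mul_le_mul_right hmain hTpos

end Pool.Agent.H201.PW
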