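import Pool.Agent.H201.NC.Core

/-!
# Product weights: words with atypical frequencies have a small weight
-/

set_option autoImplicit false

namespace Pool.Agent.H201.PW

open Finset Filter Topology
open Pool.Agent.H201.NC

variable {A : Type*}

/-- the weight of a word -/
def wt (a : A → ℝ) {L : ℕ} (u : Fin L → A) : ℝ := ∏ i, a (u i)

theorem wt_nonneg {a : A → ℝ} (ha : ∀ x, 0 ≤ a x) {L : ℕ} (u : Fin L → A) : 0 ≤ wt a u :=
  prod_nonneg fun _ _ => ha _

theorem wt_append (a : A → ℝ) {M L : ℕ} (v : Fin M → A) (u : Fin L → A) :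
    wt a (Fin.append v u) = wt a v * wt a u := by
  unfold wt
  rw [Fin.prod_univ_add]
  simp

/-- the weight of a set of words -/
noncomputable def ms (a : A → ℝ) {L : ℕ} (S : Finset (Fin L → A)) : ℝ := ∑ u ∈ S, wt a u

theorem ms_nonneg {a : A → ℝ} (ha : ∀ x, 0 ≤ a x) {L : ℕ} (S : Finset (Fin L → A)) : 0 ≤ ms a S :=
  sum_nonneg fun _ _ => wt_nonneg ha _

theorem ms_mono {a : A → ℝ} (ha : ∀ x, 0 ≤ a x) {L : ℕ} {S T : Finset (Fin L → A)} (h : S ⊆ T) :
    ms a S ≤ ms a T :=
  sum_le_sum_of_subset_of_nonneg h fun _ _ _ => wt_nonneg ha _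

variable [Fintype A]

theorem ms_univ {a : A → ℝ} (h1 : ∑ x, a x = 1) (L : ℕ) :
    ms a (univ : Finset (Fin L → A)) = 1 := by
  unfold ms wt
  rw [← Fintype.sum_pow, h1, one_pow]

theorem ms_le_one {a : A → ℝ} (ha : ∀ x, 0 ≤ a x) (h1 : ∑ x, a x = 1) {L : ℕ}
    (S : Finset (Fin L → A)) : ms a S ≤ 1 := by
  rw [← ms_univ h1 L]
  exact ms_mono ha (subset_univ _)

theorem ms_compl [DecidableEq A] {a : A → ℝ} (h1 : ∑ x, a x = 1) {L : ℕ}
    (S : Finset (Fin L → A)) : ms a Sᶜ = 1 - ms a S := by
  rw [← ms_univ h1 L]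
  unfold ms
  rw [← sum_compl_add_sum S, add_sub_cancel_right]

variable [Inhabited A]

theorem blockprod {a : A → ℝ} (h1 : ∑ x, a x = 1) {M : ℕ} (g : (Fin M → A) → ℝ) (n : ℕ) :
    ∀ L, n * M ≤ L →
    ∑ u : Fin L → A, wt a u * ∏ j ∈ range n, g (win (ext u) M (j * M)) =
      (∑ v, wt a v * g v) ^ n := by
  induction n with
  | zero =>
    intro L _
    simp only [range_zero, prod_empty, mul_one, pow_zero]
    exact ms_univ h1 L
  | succ n ih =>
    intro L hL
    obtain ⟨L', rfl⟩ : ∃ L', L = M + L' := ⟨L - M, by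
      have : (n + 1) * M = n * M + M := by ring
      omega⟩
    have hL' : n * M ≤ L' := by
      have : (n + 1) * M = n * M + M := by ring
      omega
    rw [← (Fin.appendEquiv (α := A) M L').sum_comp, Fintype.sum_prod_type]
    have h2 : ∀ (v : Fin M → A) (u : Fin L' → A),
        wt a (Fin.appendEquiv M L' (v, u)) *
          ∏ j ∈ range (n + 1), g (win (ext (Fin.appendEquiv M L' (v, u))) M (j * M)) =
          (wt a v * g v) * (wt a u * ∏ j ∈ range n, g (win (ext u) M (j * M))) := by
      intro v u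
      have h3 : wt a (Fin.appendEquiv M L' (v, u)) = wt a v * wt a u := wt_append a v u
      rw [h3, prod_range_succ']
      have h4 : g (win (ext (Fin.appendEquiv M L' (v, u))) M (0 * M)) = g v := by
        congr 1
        funext i
        show ext (Fin.append v u) (0 * M + i) = v i
        rw [zero_mul, zero_add]
        exact ext_append_lt v u i
      have h5 : ∏ j ∈ range n, g (win (ext (Fin.appendEquiv M L' (v, u))) M ((j + 1) * M)) =
          ∏ j ∈ range n, g (win (ext u) M (j * M)) := by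
        refine prod_congr rfl fun j _ => ?_
        congr 1
        funext i
        show ext (Fin.append v u) ((j + 1) * M + i) = ext u (j * M + i)
        rw [show (j + 1) * M + (i : ℕ) = M + (j * M + i) by ring, ext_append_add]
      rw [h4, h5]
      ring
    simp only [h2, ← mul_sum]
    rw [ih L' hL', ← sum_mul, pow_succ, mul_comm]

theorem shiftsum {a : A → ℝ} (h1 : ∑ x, a x = 1) (F : (ℕ → A) → ℝ) {r L : ℕ} (h : r ≤ L) :
    ∑ u : Fin L → A, wt a u * F (fun k => ext u (r + k)) =
      ∑ u : Fin (L - r) → A, wt a u * F (ext u) := by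
  obtain ⟨L', rfl⟩ : ∃ L', L = r + L' := ⟨L - r, by omega⟩
  rw [← (Fin.appendEquiv (α := A) r L').sum_comp, Fintype.sum_prod_type]
  have h2 : ∀ (v : Fin r → A) (u : Fin L' → A),
      wt a (Fin.appendEquiv r L' (v, u)) *
        F (fun k => ext (Fin.appendEquiv r L' (v, u)) (r + k)) = wt a v * (wt a u * F (ext u)) := by
    intro v u
    have h3 : wt a (Fin.appendEquiv r L' (v, u)) = wt a v * wt a u := wt_append a v u
    have h4 : (fun k => ext (Fin.appendEquiv r L' (v, u)) (r + k)) = ext u := by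
      funext k
      exact ext_append_add v u k
    rw [h3, h4, mul_assoc]
  simp only [h2, ← mul_sum]
  rw [← sum_mul]
  have h3 : ∑ v : Fin r → A, wt a v = 1 := ms_univ h1 r
  rw [h3, one_mul, Nat.add_sub_cancel_left]

/-- block sums at the offset `r` -/
theorem blockprod' {a : A → ℝ} (h1 : ∑ x, a x = 1) {M : ℕ} (g : (Fin M → A) → ℝ) {n r L : ℕ}
    (h : r + n * M ≤ L) :
    ∑ u : Fin L → A, wt a u * ∏ j ∈ range n, g (win (ext u) M (r + j * M)) =
      (∑ v, wt a v * g v) ^ n := by
  have h2 := shiftsum (A := A) h1 (fun d => ∏ j ∈ range n, g (win d M (j * M))) (r := r) (L := L)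
    (by omega)
  have h3 : ∀ u : Fin L → A, ∏ j ∈ range n, g (win (fun k => ext u (r + k)) M (j * M)) =
      ∏ j ∈ range n, g (win (ext u) M (r + j * M)) := by
    intro u
    refine prod_congr rfl fun j _ => ?_
    congr 1
    funext i
    show ext u (r + (j * M + i)) = ext u (r + j * M + i)
    rw [add_assoc]
  simp only [h3] at h2
  rw [h2, blockprod h1 g n (L - r) (by omega)]

variable [DecidableEq A]

theorem upper {a : A → ℝ} (ha : ∀ x, 0 ≤ a x) (h1 : ∑ x, a x = 1) {M : ℕ}
    (S : Finset (Fin M → A)) {δ : ℝ} (hδ : 0 < δ) (hδ1 : δ ≤ 1) {n r L : ℕ} (h : r + n * M ≤ L) :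
    ms a (univ.filter fun u : Fin L → A => (ms a S + δ) * n ≤
      ((range n).filter fun j => win (ext u) M (r + j * M) ∈ S).card) ≤
      Real.exp (-(δ ^ 2 / 4) * n) := by
  set T := univ.filter fun u : Fin L → A => (ms a S + δ) * n ≤
      ((range n).filter fun j => win (ext u) M (r + j * M) ∈ S).card with hT
  set lam : ℝ := δ / 2 with hlam
  set p := ms a S with hp
  have hp0 : 0 ≤ p := ms_nonneg ha S
  have hp1 : p ≤ 1 := ms_le_one ha h1 S
  set g : (Fin M → A) → ℝ := fun v => if v ∈ S then Real.exp lam else 1 with hg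
  have hg0 : ∀ v, 0 ≤ g v := by
    intro v
    rw [hg]
    simp only
    split_ifs
    · exact (Real.exp_pos _).le
    · norm_num
  have k1 := blockprod' h1 g h
  have k2 : ∀ u : Fin L → A, ∏ j ∈ range n, g (win (ext u) M (r + j * M)) =
      Real.exp (lam * ((range n).filter fun j => win (ext u) M (r + j * M) ∈ S).card) := by
    intro u
    rw [hg]
    simp only
    rw [prod_ite, prod_const_one, mul_one, prod_const, ← Real.exp_nat_mul, mul_comm]
  have k3 : ∑ v, wt a v * g v = 1 + p * (Real.exp lam - 1) := by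
    have e1 : ∀ v, wt a v * g v = wt a v + (Real.exp lam - 1) * (if v ∈ S then wt a v else 0) := by
      intro v
      rw [hg]
      simp only
      split_ifs
      · ring
      · ring
    simp only [e1]
    rw [sum_add_distrib, ← mul_sum, sum_ite_mem, univ_inter]
    have e2 : ∑ v : Fin M → A, wt a v = 1 := ms_univ h1 M
    rw [e2, hp]
    unfold ms
    ring
  have k4 : ms a T * Real.exp (lam * ((p + δ) * n)) ≤ Real.exp (n * (p * (lam + lam ^ 2))) := by
    calc ms a T * Real.exp (lam * ((p + δ) * n))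
        = ∑ u ∈ T, wt a u * Real.exp (lam * ((p + δ) * n)) := by
          unfold ms
          rw [sum_mul]
      _ ≤ ∑ u ∈ T, wt a u * ∏ j ∈ range n, g (win (ext u) M (r + j * M)) := by
          refine sum_le_sum fun u hu => ?_
          rw [k2]
          rw [hT, mem_filter] at hu
          exact mul_le_mul_of_nonneg_left
            (Real.exp_le_exp.mpr (mul_le_mul_of_nonneg_left hu.2 (by positivity))) (wt_nonneg ha _)
      _ ≤ ∑ u, wt a u * ∏ j ∈ range n, g (win (ext u) M (r + j * M)) := by
          refine sum_le_sum_of_subset_of_nonneg (subset_univ _) fun u _ _ => ?_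
          exact mul_nonneg (wt_nonneg ha _) (prod_nonneg fun j _ => hg0 _)
      _ = (1 + p * (Real.exp lam - 1)) ^ n := by rw [k1, k3]
      _ ≤ (Real.exp (p * (lam + lam ^ 2))) ^ n := by
          have h5 : Real.exp lam - 1 ≤ lam + lam ^ 2 := by
            have h6 := Real.abs_exp_sub_one_sub_id_le (x := lam) (by
              rw [abs_le]
              constructor <;> (rw [hlam]; linarith))
            have := (abs_le.mp h6).2
            linarith
          have h7 : 0 ≤ Real.exp lam - 1 := by
            have : 1 ≤ Real.exp lam := Real.one_le_exp (by rw [hlam]; linarith)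
            linarith
          have h8 : 1 + p * (Real.exp lam - 1) ≤ Real.exp (p * (lam + lam ^ 2)) := by
            have h9 := Real.add_one_le_exp (p * (lam + lam ^ 2))
            nlinarith
          have h10 : 0 ≤ 1 + p * (Real.exp lam - 1) := by positivity
          gcongr
      _ = _ := by rw [← Real.exp_nat_mul]
  have k5 : ms a T ≤ Real.exp (n * (p * (lam + lam ^ 2))) *
      Real.exp (-(lam * ((p + δ) * n))) := by
    rw [Real.exp_neg, ← div_eq_mul_inv, le_div_iff₀ (Real.exp_pos _)]
    exact k4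
  refine k5.trans ?_
  rw [← Real.exp_add]
  refine Real.exp_le_exp.mpr ?_
  have h6 : (0 : ℝ) ≤ n := Nat.cast_nonneg n
  have h7 : ↑n * (p * (lam + lam ^ 2)) + -(lam * ((p + δ) * ↑n)) = n * (p * lam ^ 2 - lam * δ) := by
    ring
  rw [h7]
  have h8 : p * lam ^ 2 - lam * δ ≤ -(δ ^ 2 / 4) := by
    rw [hlam]
    nlinarith
  nlinarith

theorem lower {a : A → ℝ} (ha : ∀ x, 0 ≤ a x) (h1 : ∑ x, a x = 1) {M : ℕ}
    (S : Finset (Fin M → A)) {δ : ℝ} (hδ : 0 < δ) (hδ1 : δ ≤ 1) {n r L : ℕ} (h : r + n * M ≤ L) :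
    ms a (univ.filter fun u : Fin L → A =>
      (((range n).filter fun j => win (ext u) M (r + j * M) ∈ S).card : ℝ) ≤
      (ms a S - δ) * n) ≤
      Real.exp (-(δ ^ 2 / 4) * n) := by
  refine le_trans ?_ (upper ha h1 Sᶜ hδ hδ1 h)
  refine ms_mono ha fun u hu => ?_
  rw [mem_filter] at hu ⊢
  refine ⟨hu.1, ?_⟩
  have k1 := card_filter_add_card_filter_not (s := range n)
    (fun j => win (ext u) M (r + j * M) ∈ S)
  simp only [mem_compl]
  rw [card_range] at k1
  have k2 : (((range n).filter fun j => win (ext u) M (r + j * M) ∈ S).card : ℝ) +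
      ((range n).filter fun j => ¬ win (ext u) M (r + j * M) ∈ S).card = n := by exact_mod_cast k1
  rw [ms_compl h1]
  linarith [hu.2]

end Pool.Agent.H201.PW
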